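import Pool.Agent.Helper60.RR.FinalH

/-!
# The rotation problem for spaces of measurable functions with values in a Hilbert space

Project RR: helper60 (base files, duality map, last steps), helper83 (conditional expectation),
helper89 (reference functional, cyclic vectors), helper98 (function spaces, equality of norms).
-/

set_option autoImplicit false

open MeasureTheory

universe u v w

namespace Pool.Agent.Results.MP_cc72b1_an.HilbertValuedFunctions

/-- **The rotation problem for function spaces.** Let `H` be a real Hilbert space and let `E` be a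
separable real Banach space of measurable `H`-valued functions on an arbitrary measure space, with
a solid norm. Suppose that the norm of `E` is transitive. Then `E` is linearly isometric to a
Hilbert space; or the dimension of `H` is at most one (so `E` is a space of real functions) and `0`
is the only bounded operator `D` on `E` such that all the operators `exp (t D)`, `t` real, preserve
the norm. -/
theorem result {Ω : Type v} [MeasurableSpace Ω] (μ : Measure Ω) (H : Type w)
    [NormedAddCommGroup H] [InnerProductSpace ℝ H] [CompleteSpace H] (E : Type u)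
    [NormedAddCommGroup E] [NormedSpace ℝ E] [CompleteSpace E]
    [TopologicalSpace.SeparableSpace E] (j : E →ₗ[ℝ] (Ω →ₘ[μ] H))
    (hj : Pool.Agent.Helper60.RR.IsVectorFunctionSpace μ j)
    (htr : ∀ x y : E, ‖x‖ = 1 → ‖y‖ = 1 → ∃ T : E ≃ₗᵢ[ℝ] E, T x = y) :
    (∃ (K : Type u) (_ : NormedAddCommGroup K) (_ : InnerProductSpace ℝ K) (_ : CompleteSpace K),
      Nonempty (E ≃ₗᵢ[ℝ] K)) ∨
    ((∃ e : H, ∀ h : H, ∃ c : ℝ, h = c • e) ∧
      ∀ D : E →L[ℝ] E, (∀ (t : ℝ) (x : E), ‖NormedSpace.exp (t • D) x‖ = ‖x‖) → D = 0) := by
  by_cases hp : ∀ f g : E, ‖f + g‖ ^ 2 + ‖f - g‖ ^ 2 = 2 * (‖f‖ ^ 2 + ‖g‖ ^ 2)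
  · left
    let _ : InnerProductSpace ℝ E := InnerProductSpace.ofNorm ℝ (fun x y => by
      have := hp x y
      simpa only [sq] using this)
    exact ⟨E, inferInstance, inferInstance, inferInstance, ⟨LinearIsometryEquiv.refl ℝ E⟩⟩
  · exact Or.inr (Pool.Agent.Helper60.RR.main_vector hj htr hp)

end Pool.Agent.Results.MP_cc72b1_an.HilbertValuedFunctions
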