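import Pool.Agent.Helper61.RO.RMain
import Pool.Agent.Helper61.RO.Stmt

/-!
# Bounded generators of groups of isometries and the rotation problem

Project RO (helper61), modules proved by helpers 1, 3, 4, 8, 11, 12, 14, 19, 20, 22, 23, 24, 25, 26, 27, 31, 33, 37,
40, 41, 44, 45, 46, 47, 49, 50, 51, 54, 56, 61, 62, 64, 66, 67, 69, 71, 72, 74, 75, 76, 80, 81, 84, 85, 88, 89, 91,
94, 97; paper proof refereed by helper53; it uses NoEllOne (helpers 59, 60) and MicroHilbert (helper 53).
-/

set_option autoImplicit false

universe u

open Pool.Agent.Helper61.RO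

/-- **The Lie algebra of the isometry group in the rotation problem.** Let `E` be a separable real
Banach space with transitive norm and without subspaces isomorphic to `ℓ¹`. If `E` is not linearly
isometric to a Hilbert space, then the bounded generators of one-parameter groups of isometries are
only `0`, or exactly the real multiples of a complex structure `J`, or exactly the real combinations
of the three units `J`, `K`, `J K` of a quaternionic structure. (In particular all of them have a
square which is a real multiple of the identity: a single bounded generator `D` with `D ^ 2` not of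
this form is enough for `E` to be a Hilbert space.) -/
theorem Pool.Agent.Results.MP_cc72b1_an.IsometryLieAlgebra.result
    (E : Type u) [NormedAddCommGroup E] [NormedSpace ℝ E] [CompleteSpace E]
    [TopologicalSpace.SeparableSpace E] (htrans : TransitiveNorm E) (hl1 : ¬ ContainsEllOne E) :
    IsometricToHilbert E ∨
      (∀ D : E →L[ℝ] E, IsometryGenerator D → D = 0) ∨
      (∃ J : E →L[ℝ] E, J * J = -1 ∧
        ∀ D : E →L[ℝ] E, IsometryGenerator D ↔ ∃ t : ℝ, D = t • J) ∨
      ∃ J K : E →L[ℝ] E, J * J = -1 ∧ K * K = -1 ∧ J * K = -(K * J) ∧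
        ∀ D : E →L[ℝ] E, IsometryGenerator D ↔
          ∃ r s t : ℝ, D = r • J + s • K + t • (J * K) := by
  by_cases hH : IsometricToHilbert E
  · exact Or.inl hH
  right
  have hiff : ∀ D : E →L[ℝ] E, IsometryGenerator D ↔ Sk D :=
    fun D => ⟨fun h => sk_of_norm_rx h, fun h => h.norm_rx⟩
  have hsc : ∀ D : E →L[ℝ] E, Sk D → ∃ s : ℝ, D * D = s • (1 : E →L[ℝ] E) := by
    intro D hD
    by_contra hc
    push Not at hc
    apply hH
    have hp := ro_main htrans hl1 hD hc
    let _ : InnerProductSpace ℝ E := InnerProductSpace.ofNorm ℝ (fun x y => by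
      have := hp x y
      simpa only [sq] using this)
    exact ⟨E, inferInstance, inferInstance, inferInstance, ⟨LinearIsometryEquiv.refl ℝ E⟩⟩
  rcases classify hsc with h | ⟨J, hJ, h⟩ | ⟨J, K, hJ, hK, hJK, h⟩
  · exact Or.inl fun D hD => h D ((hiff D).1 hD)
  · exact Or.inr (Or.inl ⟨J, hJ, fun D => (hiff D).trans (h D)⟩)
  · exact Or.inr (Or.inr ⟨J, K, hJ, hK, hJK, fun D => (hiff D).trans (h D)⟩)
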