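import Pool.Agent.Helper53.BM.MH.Point
import Pool.Agent.Helper89.MS.Move

set_option autoImplicit false

universe u v

open Pool.Agent.Helper53.BM

/-- **Norm separable groups of isometries and the rotation problem.** Let `E` be a real or complex Banach space and
`x₀` a unit vector. Let `A ε` be the set of the unit vectors `y` which are (approximately) of the form `T x₀` with
(almost isometric) linear operators `T` such that `‖T - id‖ ≤ ε`. Suppose that for every `ε > 0` the images of `A ε`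
under countably many surjective linear isometries form a non-meagre subset of the unit sphere. Then `E` is linearly
isometric to a Hilbert space.

This contains the micro-transitive spaces (`A ε` is a neighbourhood of `x₀`; no isometries are needed) and all spaces on
whose unit sphere a group of surjective isometries which is separable in the operator norm is transitive, or has one
non-meagre orbit (take a dense sequence of the group). -/
theorem Pool.Agent.Results.MP_cc72b1_an.MicroHilbert.result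
    (𝕜 : Type v) [RCLike 𝕜] (E : Type u) [NormedAddCommGroup E] [NormedSpace 𝕜 E]
    [CompleteSpace E] (x₀ : E) (hx₀ : ‖x₀‖ = 1)
    (h : ∀ ε : ℝ, 0 < ε → ∃ S : ℕ → (E ≃ₗᵢ[𝕜] E),
      ¬ IsMeagre {v : Metric.sphere (0 : E) 1 | ∃ (n : ℕ) (y : E),
        (‖y‖ = 1 ∧ ∀ η : ℝ, 0 < η → ∃ T : E →L[𝕜] E, ‖T - ContinuousLinearMap.id 𝕜 E‖ ≤ ε ∧
          ‖T x₀ - y‖ ≤ η ∧ ∀ z : E, (1 - η) * ‖z‖ ≤ ‖T z‖ ∧ ‖T z‖ ≤ (1 + η) * ‖z‖) ∧
        (v : E) = S n y}) :
    ∃ (H : Type u) (_ : NormedAddCommGroup H) (_ : InnerProductSpace 𝕜 H) (_ : CompleteSpace H),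
      Nonempty (E ≃ₗᵢ[𝕜] H) := by
  letI : NormedSpace ℝ E := NormedSpace.restrictScalars ℝ 𝕜 E
  have key : ∀ x y : E, ‖x + y‖ ^ 2 + ‖x - y‖ ^ 2 = 2 * (‖x‖ ^ 2 + ‖y‖ ^ 2) := by
    refine parallelogram_of_point hx₀ fun ε hε => ?_
    obtain ⟨δ, hδ, hT⟩ := Pool.Agent.Helper89.MS.exists_delta (𝕜 := 𝕜) hx₀ h ε hε
    refine ⟨δ, hδ, fun y hy hyx η hη => ?_⟩
    obtain ⟨T, hT1, hT2, hT3⟩ := hT y hy hyx η hη
    let T' : E →L[ℝ] E :=
      { toFun := T
        map_add' := fun a b => map_add T a b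
        map_smul' := fun c a => T.map_smul ((algebraMap ℝ 𝕜) c) a
        cont := T.continuous }
    refine ⟨T', fun z => ?_, hT2, hT3⟩
    calc ‖T' z - z‖ = ‖(T - ContinuousLinearMap.id 𝕜 E) z‖ := rfl
      _ ≤ ‖T - ContinuousLinearMap.id 𝕜 E‖ * ‖z‖ :=
          (T - ContinuousLinearMap.id 𝕜 E).le_opNorm z
      _ ≤ ε * ‖z‖ := by gcongr
  letI : InnerProductSpace 𝕜 E := InnerProductSpace.ofNorm (𝕜 := 𝕜) (fun x y => by
    have := key x y
    simpa only [sq] using this)
  exact ⟨E, inferInstance, inferInstance, inferInstance, ⟨LinearIsometryEquiv.refl 𝕜 E⟩⟩
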