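import Pool.Agent.Helper87.BM2.Forms

/-!
# Separable spaces with transitive norm: touching inner products at every point
-/

namespace Pool.Agent.Results.MP_cc72b1_an.TouchingHilbertNorms

open Pool.Agent.Helper87.BM2 in
/-- Let `E` be a separable real Banach space whose surjective linear isometries act transitively
on the unit sphere. Then at every unit vector `x` the norm is touched from above by a norm which
comes from an inner product: there are a dense linear subspace `V` which contains `x` and an inner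
product `C` on `V` with `‖v‖ ^ 2 ≤ C v v` for `v` in `V` and `C x x = 1`. If moreover `E` has no
subspace isomorphic to `ℓ¹`, then at every unit vector `x` the norm is also touched from below, by
an inner product `B` on the whole space `E` with `B v v ≤ ‖v‖ ^ 2` and `B x x = 1`, and `E` is
uniformly convex and uniformly smooth. -/
theorem result (E : Type*) [NormedAddCommGroup E] [NormedSpace ℝ E] [CompleteSpace E]
    [TopologicalSpace.SeparableSpace E]
    (htrans : ∀ x y : E, ‖x‖ = 1 → ‖y‖ = 1 → ∃ T : E ≃ₗᵢ[ℝ] E, T x = y) :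
    (∀ x : E, ‖x‖ = 1 → ∃ (V : Submodule ℝ E) (C : E → E → ℝ), Dense (V : Set E) ∧ x ∈ V ∧
      IsInnerProductOn V C ∧ (∀ v ∈ V, ‖v‖ ^ 2 ≤ C v v) ∧ C x x = 1) ∧
    (¬ ContainsEllOne E →
      (∀ x : E, ‖x‖ = 1 →
        ∃ B : E → E → ℝ, IsInnerProductOn ⊤ B ∧ (∀ v, B v v ≤ ‖v‖ ^ 2) ∧ B x x = 1) ∧
      (∀ ε : ℝ, 0 < ε → ∃ δ : ℝ, 0 < δ ∧ ∀ x y : E, ‖x‖ = 1 → ‖y‖ = 1 → ε ≤ ‖x - y‖ →
        ‖x + y‖ ≤ 2 - δ) ∧
      (∀ ε : ℝ, 0 < ε → ∃ δ : ℝ, 0 < δ ∧ ∀ x h : E, ‖x‖ = 1 → ‖h‖ ≤ δ →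
        ‖x + h‖ + ‖x - h‖ ≤ 2 + ε * ‖h‖)) := by
  have hnt : ∀ x : E, ‖x‖ = 1 → Nontrivial E := fun x hx =>
    ⟨x, 0, fun h => by rw [h, norm_zero] at hx; exact zero_ne_one hx⟩
  refine ⟨fun x hx => inner_of_ge ?_, fun hl1 => ?_⟩
  · have : Nontrivial E := hnt x hx
    obtain ⟨S, a, hSd, hS, ha, hSa⟩ := Pool.Agent.Helper83.BM2.exists_touch' E
    obtain ⟨u, hu⟩ := htrans (S a) x hSa hx
    refine exists_form_ge (S := (u : E →L[ℝ] E).comp S)
      (u.surjective.denseRange.comp hSd u.continuous) (fun b => ?_) ha hx hu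
    change ‖u (S b)‖ ≤ ‖b‖
    rw [u.norm_map]
    exact hS b
  · have hno : ¬ Helper60.Rosenthal.ContainsL1 E := fun h => hl1 h.embedding
    obtain ⟨hUC, hUS⟩ := Helper60.Rosenthal.uniform_of_transitive htrans hno
    refine ⟨fun x hx => inner_of_le ?_, hUC, hUS⟩
    have : Nontrivial E := hnt x hx
    obtain ⟨hsepD, hatt⟩ := dual_facts htrans hno
    obtain ⟨T, x₀, hTi, hT, hx₀, hTx₀⟩ := exists_outer hatt
      (Pool.Agent.Helper83.BM2.exists_touch' (StrongDual ℝ E))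
    obtain ⟨w, hw⟩ := htrans x x₀ hx hx₀
    refine exists_form_le (T := T.comp (w : E →L[ℝ] E)) (hTi.comp w.injective) (fun v => ?_) ?_
    · change ‖T (w v)‖ ≤ ‖v‖
      exact (hT _).trans (w.norm_map v).le
    · change ‖T (w x)‖ = 1
      rw [hw, hTx₀]

end Pool.Agent.Results.MP_cc72b1_an.TouchingHilbertNorms
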